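import Mathlib

/-! Two-adic valuations of the edges of an Euler brick. -/

namespace Pool.Agent.FS.FewPrimes

/-- Two naturals that differ by at least two. -/
def Gap (a b : ℕ) : Prop := a + 2 ≤ b ∨ b + 2 ≤ a

theorem sq_div {s a : ℕ} (h : IsSquare ((2 ^ s) ^ 2 * a)) : IsSquare a := by
  obtain ⟨r, hr⟩ := h
  have hd : (2 ^ s) ^ 2 ∣ r ^ 2 := ⟨a, by rw [sq r, ← hr]⟩
  obtain ⟨t, rfl⟩ := (Nat.pow_dvd_pow_iff two_ne_zero).1 hd
  refine ⟨t, Nat.eq_of_mul_eq_mul_left (by positivity : 0 < (2 ^ s) ^ 2) ?_⟩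
  rw [hr]; ring

theorem not_sq {a b d : ℕ} (ha : Odd a) (hb : Odd b) (hd : d ≤ 1) :
    ¬ IsSquare (a ^ 2 + (2 ^ d * b) ^ 2) := by
  rintro ⟨r, hr⟩
  obtain ⟨a, rfl⟩ := ha
  obtain ⟨b, rfl⟩ := hb
  have h := congrArg (fun t : ℕ => (t : ZMod 8)) hr
  push_cast at h
  generalize (a : ZMod 8) = u at h
  generalize (b : ZMod 8) = w at h
  generalize (r : ZMod 8) = z at h
  interval_cases d <;> (revert u w z; decide)

theorem val_eq {s a : ℕ} (ha : Odd a) : padicValNat 2 (2 ^ s * a) = s := by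
  have h0 : a ≠ 0 := by rintro rfl; simp at ha
  rw [padicValNat.mul (by positivity) h0, padicValNat.prime_pow,
    padicValNat.eq_zero_of_not_dvd (fun h => (Nat.not_even_iff_odd.2 ha) (even_iff_two_dvd.2 h))]
  rfl

theorem gap_aux {s t a b : ℕ} (ha : Odd a) (hb : Odd b) (hst : s ≤ t)
    (h : IsSquare ((2 ^ s * a) ^ 2 + (2 ^ t * b) ^ 2)) : s + 2 ≤ t := by
  obtain ⟨d, rfl⟩ := Nat.exists_eq_add_of_le hst
  by_contra hc
  refine not_sq ha hb (by omega : d ≤ 1) (sq_div (s := s) ?_)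
  convert h using 1
  ring

theorem gap {a b : ℕ} (ha : 0 < a) (hb : 0 < b) (h : IsSquare (a ^ 2 + b ^ 2)) :
    Gap (padicValNat 2 a) (padicValNat 2 b) := by
  obtain ⟨s, a, h1, rfl⟩ := Nat.exists_eq_two_pow_mul_odd ha.ne'
  obtain ⟨t, b, h2, rfl⟩ := Nat.exists_eq_two_pow_mul_odd hb.ne'
  rw [val_eq h1, val_eq h2]
  rcases le_total s t with hst | hst
  · exact Or.inl (gap_aux h1 h2 hst h)
  · exact Or.inr (gap_aux h2 h1 hst (by rwa [add_comm] at h))

theorem dvd_odd {c u : ℤ} {s : ℕ} (hc : Odd c) (h : (2 : ℤ) ^ s ∣ c * u) : (2 : ℤ) ^ s ∣ u :=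
  (IsCoprime.pow_left (Int.isCoprime_two_left.2 hc)).dvd_of_dvd_mul_left h

theorem mate {m y : ℕ} (hy : 0 < y) (h : IsSquare (m ^ 2 + y ^ 2)) :
    ∃ d : ℕ, d * (d + 2 * y) = m ^ 2 := by
  obtain ⟨z, hz⟩ := h
  have hyz : y ≤ z := by
    by_contra hc
    nlinarith [sq_nonneg m, not_le.1 hc]
  obtain ⟨d, rfl⟩ := Nat.exists_eq_add_of_le hyz
  exact ⟨d, by nlinarith⟩

/-- `x` is a quotient of odd integers that are congruent modulo `2 ^ V`. -/
def Near (V : ℕ) (x : ℚ) : Prop :=
  ∃ a b : ℤ, Odd a ∧ Odd b ∧ x * b = a ∧ (2 : ℤ) ^ V ∣ a - b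

variable {ι : Type} [Fintype ι] [DecidableEq ι]

/-- The rational number with exponent vector `w`. -/
noncomputable def T (P : ι → ℚ) (w : ι → ℤ) : ℚ := ∏ i, P i ^ w i

/-- Exponent vectors whose number has square congruent to one modulo `2 ^ V`. -/
def lev (P : ι → ℚ) (hP : ∀ i, P i ≠ 0) (V : ℕ) : AddSubgroup (ι → ℤ) where
  carrier := {w | Near V (T P w ^ 2)}
  zero_mem' := ⟨1, 1, odd_one, odd_one, by simp [T], by simp⟩
  add_mem' := by
    rintro w w' ⟨a, b, h1, h2, h3, h4⟩ ⟨a', b', k1, k2, k3, k4⟩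
    have e : T P (w + w') = T P w * T P w' := by
      simp only [T, Pi.add_apply, zpow_add₀ (hP _), Finset.prod_mul_distrib]
    refine ⟨a * a', b * b', h1.mul k1, h2.mul k2, ?_, ?_⟩
    · push_cast
      rw [e, ← h3, ← k3]
      ring
    · rw [show a * a' - b * b' = a * (a' - b') + (a - b) * b' by ring]
      exact dvd_add (k4.mul_left _) (h4.mul_right _)
  neg_mem' := by
    rintro w ⟨a, b, h1, h2, h3, h4⟩
    have e : T P (-w) = (T P w)⁻¹ := by
      simp only [T, Pi.neg_apply, zpow_neg, Finset.prod_inv_distrib]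
    have t0 : T P w ≠ 0 := Finset.prod_ne_zero_iff.2 fun i _ => zpow_ne_zero _ (hP i)
    refine ⟨b, a, h2, h1, ?_, dvd_sub_comm.1 h4⟩
    rw [e, ← h3]
    field_simp

omit [DecidableEq ι] in
theorem lev_mono {P : ι → ℚ} (hP : ∀ i, P i ≠ 0) {V V' : ℕ} (h : V ≤ V') {w : ι → ℤ}
    (hw : w ∈ lev P hP V') : w ∈ lev P hP V := by
  obtain ⟨a, b, h1, h2, h3, h4⟩ := hw
  exact ⟨a, b, h1, h2, h3, (pow_dvd_pow _ h).trans h4⟩

omit [DecidableEq ι] in
/-- Lifting the exponent. -/
theorem lift_exp {P : ι → ℚ} (hP : ∀ i, P i ≠ 0) {w : ι → ℤ} {e d : ℤ} {V g : ℕ} (he : Odd e)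
    (hT : T P w ^ 2 * d = e) (h4 : 4 ∣ e - d) (hV : ¬ (2 : ℤ) ^ (V + 1) ∣ e - d) {D : ℤ}
    (h : D • w ∈ lev P hP (V + g)) : (2 : ℤ) ^ g ∣ D := by
  have h' : D.natAbs • w ∈ lev P hP (V + g) := by
    rcases Int.natAbs_eq D with h0 | h0
    · rw [h0, natCast_zsmul] at h; simpa using h
    · rw [h0, neg_smul, neg_mem_iff, natCast_zsmul] at h; simpa using h
  rw [← Int.dvd_natAbs]
  generalize D.natAbs = n at h'
  obtain ⟨a, b, -, h2, h3, h5⟩ := h'
  have e1 : T P (n • w) = T P w ^ n := by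
    simp only [T, Pi.smul_apply, nsmul_eq_mul, ← Finset.prod_pow, mul_comm (n : ℤ), zpow_mul,
      zpow_natCast]
  have e2 : b * (e ^ n - d ^ n) = (a - b) * d ^ n := by
    have : ((b * (e ^ n - d ^ n) : ℤ) : ℚ) = ((a - b) * d ^ n : ℤ) := by
      push_cast
      rw [← h3, ← hT, e1]
      ring
    exact_mod_cast this
  have e3 : (2 : ℤ) ^ (V + g) ∣ e ^ n - d ^ n := dvd_odd h2 (e2 ▸ h5.mul_right _)
  have e4 := Int.two_pow_sub_pow' n h4 (fun h => Int.not_even_iff_odd.2 he (even_iff_two_dvd.2 h))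
  rw [pow_dvd_iff_le_emultiplicity, e4] at e3
  rw [← emultiplicity_lt_iff_not_dvd] at hV
  rw [pow_dvd_iff_le_emultiplicity]
  generalize emultiplicity (2 : ℤ) (e - d) = x at e3 hV
  generalize emultiplicity (2 : ℤ) (n : ℤ) = y at e3
  induction y using ENat.recTopCoe with
  | top => exact le_top
  | coe y =>
    induction x using ENat.recTopCoe with
    | top => exact absurd hV not_top_lt
    | coe x =>
      norm_cast at e3 hV ⊢
      omega

theorem det_bound (a : ι → ℕ) (M : Matrix ι ι ℤ) (h : ∀ i c, |M i c| ≤ a i) :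
    |M.det| ≤ ((Fintype.card ι).factorial * ∏ i, a i : ℕ) := by
  rw [Matrix.det_apply]
  refine (Finset.abs_sum_le_sum_abs _ _).trans ?_
  have : ∀ σ ∈ (Finset.univ : Finset (Equiv.Perm ι)),
      |Equiv.Perm.sign σ • ∏ i, M (σ i) i| ≤ ∏ i, (a i : ℤ) := fun σ _ => by
    have e : |Equiv.Perm.sign σ • ∏ i, M (σ i) i| = |∏ i, M (σ i) i| := by
      rcases Int.units_eq_one_or (Equiv.Perm.sign σ) with h | h <;> simp [h]
    rw [e, Finset.abs_prod, ← Equiv.prod_comp σ fun i => (a i : ℤ)]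
    exact Finset.prod_le_prod (fun _ _ => abs_nonneg _) fun i _ => h _ _
  refine (Finset.sum_le_card_nsmul _ _ _ this).trans (le_of_eq ?_)
  simp [Fintype.card_perm]

/-- Exchange of columns, from the highest level downwards. -/
theorem exchange {κ : Type} (a : ι → ℕ) (ha : ∀ i, 1 ≤ a i) (A : ℕ → AddSubgroup (ι → ℤ))
    (hA : ∀ V V', V ≤ V' → ∀ w ∈ A V', w ∈ A V) (G : ℕ) (hG : 0 < G) (S : Finset κ) (v : κ → ℕ)
    (w : κ → ι → ℤ) (h1 : ∀ j ∈ S, ∀ i, |w j i| ≤ a i) (h2 : ∀ j ∈ S, w j ∈ A (v j))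
    (h3 : ∀ j ∈ S, ∀ D : ℤ, |D| ≤ ((Fintype.card ι).factorial * ∏ i, a i : ℕ) →
      D • w j ∈ A (v j + 2 * G) → D = 0)
    (h4 : ∀ i ∈ S, ∀ j ∈ S, i ≠ j → Gap (v i) (v j)) (s : ℕ) :
    ∀ V, ∀ S' ⊆ S, (∀ j ∈ S', V ≤ v j) → s * G < S'.card + G →
      ∃ (M : Matrix ι ι ℤ) (J : Finset ι), J.card = s ∧ M.det ≠ 0 ∧ (∀ i c, |M i c| ≤ a i) ∧
        ∀ c ∈ J, (fun i => M i c) ∈ A V := by
  classical
  induction s with
  | zero =>
    refine fun V S' _ _ _ => ⟨1, ∅, rfl, by simp, fun i c => ?_, by simp⟩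
    have := ha i
    rw [Matrix.one_apply]
    split_ifs <;> simp
    exact_mod_cast this
  | succ s ih =>
    intro V S' hS hV hc
    have hc' : s * G < S'.card := by rw [Nat.succ_mul] at hc; omega
    obtain ⟨j, hj, hmin⟩ := S'.exists_min_image v (Finset.card_pos.1 (by omega))
    have c1 : (S'.filter fun l => ¬ v j + 2 * G ≤ v l).card ≤ G := by
      rw [← Finset.card_range G]
      refine Finset.card_le_card_of_injOn (fun l => (v l - v j) / 2) (fun l hl => ?_)
        fun x hx y hy e => by_contra fun h => ?_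
      · have := (Finset.mem_filter.1 hl).2
        simp only [Finset.card_range, Finset.coe_range, Set.mem_Iio] at this ⊢
        omega
      · have x1 := (Finset.mem_filter.1 hx).1
        have y1 := (Finset.mem_filter.1 hy).1
        have := h4 x (hS x1) y (hS y1) h
        have := hmin x x1
        have := hmin y y1
        unfold Gap at *
        simp only at e
        omega
    have c2 := Finset.card_filter_add_card_filter_not (s := S') fun l => v j + 2 * G ≤ v l
    obtain ⟨M, J, hJ, hM, hb, hcol⟩ := ih (v j + 2 * G) (S'.filter fun l => v j + 2 * G ≤ v l)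
      ((Finset.filter_subset _ _).trans hS) (fun l hl => (Finset.mem_filter.1 hl).2) (by omega)
    by_cases hex : ∃ c ∉ J, M.cramer (w j) c ≠ 0
    · obtain ⟨c, hcJ, hc0⟩ := hex
      refine ⟨M.updateCol c (w j), insert c J, by rw [Finset.card_insert_of_notMem hcJ, hJ],
        by rwa [Matrix.cramer_apply] at hc0, fun i c' => ?_, fun c' hc' => ?_⟩
      · rw [Matrix.updateCol_apply]
        split_ifs
        exacts [h1 j (hS hj) i, hb i c']
      · simp only [Matrix.updateCol_apply]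
        split_ifs with e
        · exact hA _ _ (hV j hj) _ (h2 j (hS hj))
        · exact hA _ _ ((hV j hj).trans (Nat.le_add_right _ _)) _
            (hcol c' ((Finset.mem_insert.1 hc').resolve_left e))
    · refine (hM (h3 j (hS hj) _ (det_bound a M hb) ?_)).elim
      have e : M.det • w j = ∑ c, M.cramer (w j) c • fun i => M i c := by
        rw [← Matrix.mulVec_cramer]
        funext i
        simp [Matrix.mulVec, dotProduct, mul_comm]
      rw [e]
      refine sum_mem fun c _ => ?_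
      by_cases hcJ : c ∈ J
      · exact zsmul_mem (hcol c hcJ) _
      · have : M.cramer (w j) c = 0 := by_contra fun h => hex ⟨c, hcJ, h⟩
        rw [this, zero_smul]
        exact zero_mem _

theorem prod_fact {m d : ℕ} (m0 : m ≠ 0) (hd : d ∣ m ^ 2) :
    ∏ i : m.primeFactors, ((i : ℕ) : ℚ) ^ (d.factorization i : ℤ) = d := by
  have d0 : d ≠ 0 := ne_zero_of_dvd_ne_zero (pow_ne_zero 2 m0) hd
  have hs : d.factorization.support ⊆ m.primeFactors := by
    rw [Nat.support_factorization, ← Nat.primeFactors_pow m two_ne_zero]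
    exact Nat.primeFactors_mono hd (pow_ne_zero 2 m0)
  have h := Nat.prod_factorization_pow_eq_self d0
  rw [Finsupp.prod_of_support_subset _ hs _ (by simp)] at h
  rw [Finset.prod_coe_sort m.primeFactors fun i => (i : ℚ) ^ (d.factorization i : ℤ)]
  simp only [zpow_natCast]
  exact_mod_cast h

/-- Mates of an odd number. -/
theorem high {κ : Type} (S : Finset κ) (y : κ → ℕ) {m : ℕ} (hm : Odd m) (h0 : ∀ j ∈ S, 0 < y j)
    (h1 : ∀ j ∈ S, IsSquare (m ^ 2 + y j ^ 2))
    (h2 : ∀ i ∈ S, ∀ j ∈ S, i ≠ j → Gap (padicValNat 2 (y i)) (padicValNat 2 (y j))) :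
    S.card ≤ m.primeFactors.card * (1 + Nat.log 4
      (m.primeFactors.card.factorial * ∏ p ∈ m.primeFactors, m.factorization p)) := by
  classical
  have m0 : m ≠ 0 := by rintro rfl; simp at hm
  choose! d hd using fun j hj => mate (h0 j hj) (h1 j hj)
  have hdv : ∀ j ∈ S, d j ∣ m ^ 2 := fun j hj => ⟨_, (hd j hj).symm⟩
  have hP : ∀ i : m.primeFactors, ((i : ℕ) : ℚ) ≠ 0 := fun i => by
    exact_mod_cast (Nat.prime_of_mem_primeFactors i.2).ne_zero
  have hT : ∀ j ∈ S, T (fun i : m.primeFactors => ((i : ℕ) : ℚ))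
      (fun i => (m.factorization i : ℤ) - (d j).factorization i) ^ 2 * ((d j : ℤ) : ℚ)
      = ((d j + 2 * y j : ℤ) : ℚ) := fun j hj => by
    have d0 : (d j : ℚ) ≠ 0 := by
      exact_mod_cast ne_zero_of_dvd_ne_zero (pow_ne_zero 2 m0) (hdv j hj)
    have e : (d j : ℚ) * (d j + 2 * y j) = m ^ 2 := by exact_mod_cast hd j hj
    simp only [T, zpow_sub₀ (hP _), Finset.prod_div_distrib, prod_fact m0 (hdv j hj),
      prod_fact m0 (dvd_pow_self m two_ne_zero)]
    push_cast
    field_simp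
    linear_combination -e
  have ho : ∀ j ∈ S, Odd (d j : ℤ) ∧ Odd (d j + 2 * y j : ℤ) := fun j hj => by
    have : Odd ((d j : ℤ) * (d j + 2 * y j)) := by
      have h := hm.pow (n := 2)
      rw [← hd j hj] at h
      exact_mod_cast h
    exact Int.odd_mul.1 this
  have hv : ∀ j ∈ S, ∀ s, (2 : ℤ) ^ (s + 1) ∣ (d j + 2 * y j : ℤ) - d j ↔
      s ≤ padicValNat 2 (y j) := fun j hj s => by
    rw [add_sub_cancel_left, pow_succ', mul_dvd_mul_iff_left two_ne_zero,
      ← padicValNat_dvd_iff_le (h0 j hj).ne']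
    exact_mod_cast Iff.rfl
  have h4 : ∀ j ∈ S, 2 ≤ padicValNat 2 (y j) := fun j hj => by
    have := gap (Nat.pos_of_ne_zero m0) (h0 j hj) (h1 j hj)
    have e := val_eq (s := 0) hm
    rw [pow_zero, one_mul] at e
    unfold Gap at this
    omega
  obtain ⟨H, hH⟩ : ∃ H, H = m.primeFactors.card.factorial *
    ∏ p ∈ m.primeFactors, m.factorization p := ⟨_, rfl⟩
  rw [← hH]
  by_contra hc
  obtain ⟨M, J, hJ, -⟩ := exchange (fun i : m.primeFactors => m.factorization i)
    (fun i => (Nat.prime_of_mem_primeFactors i.2).factorization_pos_of_dvd m0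
      (Nat.dvd_of_mem_primeFactors i.2))
    (lev _ hP) (fun V V' h w hw => lev_mono hP h hw) (1 + Nat.log 4 H) (by omega) S
    (fun j => padicValNat 2 (y j) + 1)
    (fun j i => (m.factorization i : ℤ) - (d j).factorization i)
    (fun j hj i => by
      have d0 := ne_zero_of_dvd_ne_zero (pow_ne_zero 2 m0) (hdv j hj)
      have := (Nat.factorization_le_iff_dvd d0 (pow_ne_zero 2 m0)).2 (hdv j hj) i
      rw [Nat.factorization_pow, Finsupp.smul_apply, smul_eq_mul] at this
      rw [abs_le]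
      constructor <;> omega)
    (fun j hj => ⟨_, _, (ho j hj).2, (ho j hj).1, hT j hj, (hv j hj _).2 le_rfl⟩)
    (fun j hj D hD hl => by
      have k1 := lift_exp hP (ho j hj).2 (hT j hj) ((hv j hj 1).2 (by have := h4 j hj; omega))
        (fun h => by have := (hv j hj _).1 h; omega) hl
      rw [Fintype.card_coe, Finset.prod_coe_sort m.primeFactors fun i => m.factorization i,
        ← hH] at hD
      refine Int.eq_zero_of_abs_lt_dvd k1 (hD.trans_lt ?_)
      have := Nat.lt_pow_succ_log_self (by norm_num : 1 < 4) H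
      rw [pow_mul, add_comm]
      exact_mod_cast this)
    (fun i hi j hj h => by have := h2 i hi j hj h; unfold Gap at *; omega)
    (m.primeFactors.card + 1) 0 S subset_rfl (fun _ _ => Nat.zero_le _)
    (by rw [Nat.succ_mul]; omega)
  have := Finset.card_le_univ J
  rw [Fintype.card_coe] at this
  omega

theorem main (n : ℕ) (x : Fin n → ℕ) (hx : ∀ i, 0 < x i)
    (hs : ∀ i j, i ≠ j → IsSquare (x i ^ 2 + x j ^ 2)) (i : Fin n) (k m : ℕ) (hm : Odd m)
    (hi : x i = 2 ^ k * m) :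
    n ≤ 1 + k / 2 + m.primeFactors.card * (1 + Nat.log 4
      (m.primeFactors.card.factorial * ∏ p ∈ m.primeFactors, m.factorization p)) := by
  have hg : ∀ a b, a ≠ b → Gap (padicValNat 2 (x a)) (padicValNat 2 (x b)) :=
    fun a b h => gap (hx a) (hx b) (hs a b h)
  have hk : padicValNat 2 (x i) = k := by rw [hi, val_eq hm]
  let Lo := Finset.univ.filter fun j => padicValNat 2 (x j) + 2 ≤ k
  let Hi := Finset.univ.filter fun j => k + 2 ≤ padicValNat 2 (x j)
  have c1 : Lo.card ≤ k / 2 := by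
    rw [← Finset.card_range (k / 2)]
    refine Finset.card_le_card_of_injOn (fun j => padicValNat 2 (x j) / 2) (fun j hj => ?_)
      fun a _ b _ e => by_contra fun h => ?_
    · have := (Finset.mem_filter.1 hj).2
      simp only [Finset.coe_range, Set.mem_Iio]
      omega
    · have := hg a b h
      unfold Gap at this
      simp only at e
      omega
  have hd : ∀ j ∈ Hi, x j = 2 ^ k * (x j / 2 ^ k) := fun j hj => by
    have := (Finset.mem_filter.1 hj).2
    exact (Nat.mul_div_cancel' ((padicValNat_dvd_iff_le (hx j).ne').2 (by omega))).symm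
  have h0 : ∀ j ∈ Hi, 0 < x j / 2 ^ k := fun j hj => by
    have := hx j
    rw [hd j hj] at this
    exact Nat.pos_of_mul_pos_left this
  have hne : ∀ j ∈ Hi, i ≠ j := fun j hj e => by
    have := (Finset.mem_filter.1 hj).2
    rw [← e] at this
    omega
  have c2 : Hi.card ≤ m.primeFactors.card * (1 + Nat.log 4
      (m.primeFactors.card.factorial * ∏ p ∈ m.primeFactors, m.factorization p)) := by
    refine high Hi (fun j => x j / 2 ^ k) hm h0 (fun j hj => sq_div (s := k) ?_)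
      fun a ha b hb h => gap (h0 a ha) (h0 b hb) (sq_div (s := k) ?_)
    · convert hs i j (hne j hj) using 1
      conv_rhs => rw [hi, hd j hj]
      ring
    · convert hs a b h using 1
      conv_rhs => rw [hd a ha, hd b hb]
      ring
  have c3 : (Finset.univ : Finset (Fin n)) ⊆ insert i (Lo ∪ Hi) := fun j _ => by
    by_cases e : j = i
    · simp [e]
    · have := hg j i e
      rw [hk] at this
      simp only [Finset.mem_insert, Finset.mem_union, Lo, Hi, Finset.mem_filter, Finset.mem_univ,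
        true_and]
      exact Or.inr this
  have c4 := (Finset.card_le_card c3).trans (Finset.card_insert_le _ _)
  have c5 := Finset.card_union_le Lo Hi
  rw [Finset.card_univ, Fintype.card_fin] at c4
  omega

end Pool.Agent.FS.FewPrimes
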